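import Pool.Agent.Q211.FI.Defs

/-!
# A 4-regular quasi-transitive graph with a factor of i.i.d. perfect matching and without factor of
i.i.d. balanced orientations
-/

set_option autoImplicit false

open MeasureTheory ProbabilityTheory Filter Topology Set

namespace Pool.Agent.Results.MP_71d783_pr.MatchingNoBalancedOrientation

open Pool.Agent.Q211.FI

/-- The vertices: each integer is replaced by four vertices. -/
abbrev V := ℤ × Fin 4

/-- The partner of a vertex outside its block of four. -/
def ext : V → V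
  | (i, 0) => (i + 1, 1)
  | (i, 1) => (i - 1, 0)
  | (i, 2) => (i + 2, 3)
  | (i, 3) => (i - 2, 2)

theorem ext_ext (v : V) : ext (ext v) = v := by
  obtain ⟨i, a⟩ := v
  fin_cases a <;> simp [ext]

theorem ext_fst (v : V) : (ext v).1 ≠ v.1 := by
  obtain ⟨i, a⟩ := v
  fin_cases a <;> simp [ext]

/-- The graph: each block is a complete graph on four vertices, and every vertex is joined to its
partner. -/
def G : SimpleGraph V where
  Adj u v := (u.1 = v.1 ∧ u.2 ≠ v.2) ∨ v = ext u
  symm := ⟨by
    rintro u v (⟨h1, h2⟩ | h)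
    · exact Or.inl ⟨h1.symm, h2.symm⟩
    · right
      rw [h, ext_ext]⟩
  loopless := ⟨by
    rintro v (⟨_, h⟩ | h)
    · exact h rfl
    · exact ext_fst v (congrArg Prod.fst h).symm⟩

theorem adj_iff (u v : V) : G.Adj u v ↔ (u.1 = v.1 ∧ u.2 ≠ v.2) ∨ v = ext u := Iff.rfl

/-- The four neighbours of a vertex. -/
def nb (v : V) (k : Fin 4) : V := if k = v.2 then ext v else (v.1, k)

theorem nb_inj (v : V) : Function.Injective (nb v) := by
  intro k l h
  unfold nb at h
  split_ifs at h with h1 h2 h3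
  · rw [h1, h2]
  · exact absurd (congrArg Prod.fst h) (ext_fst v)
  · exact absurd (congrArg Prod.fst h).symm (ext_fst v)
  · exact congrArg Prod.snd h

theorem adj_nb (v u : V) : G.Adj v u ↔ ∃ k, u = nb v k := by
  rw [adj_iff]
  constructor
  · rintro (⟨h1, h2⟩ | h)
    · refine ⟨u.2, ?_⟩
      unfold nb
      rw [if_neg (fun h => h2 h.symm), h1]
    · exact ⟨v.2, by unfold nb; rw [if_pos rfl, h]⟩
  · rintro ⟨k, rfl⟩
    unfold nb
    split_ifs with h
    · exact Or.inr rfl
    · exact Or.inl ⟨rfl, fun h2 => h h2.symm⟩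

theorem regular (v : V) : (G.neighborSet v).ncard = 4 := by
  have h : G.neighborSet v = nb v '' Set.univ := by
    ext u
    rw [SimpleGraph.mem_neighborSet, adj_nb]
    simp [eq_comm]
  rw [h, Set.ncard_image_of_injective _ (nb_inj v), Set.ncard_univ]
  simp

/-- Automorphisms from bijections which commute with `ext` and respect the blocks. -/
def mkAut (f : V ≃ V) (h1 : ∀ v, ext (f v) = f (ext v))
    (h2 : ∀ u v, (u.1 = v.1 ∧ u.2 ≠ v.2) ↔ ((f u).1 = (f v).1 ∧ (f u).2 ≠ (f v).2)) : G ≃g G where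
  toEquiv := f
  map_rel_iff' := by
    intro u v
    rw [adj_iff, adj_iff, h1, ← h2]
    simp [f.injective.eq_iff]

/-- The translation by `n`. -/
def trans (n : ℤ) : V ≃ V where
  toFun v := (v.1 + n, v.2)
  invFun v := (v.1 - n, v.2)
  left_inv v := by simp
  right_inv v := by simp

/-- The reflection of the labels. -/
def sw : Fin 4 → Fin 4
  | 0 => 1
  | 1 => 0
  | 2 => 3
  | 3 => 2

theorem sw_sw (a : Fin 4) : sw (sw a) = a := by
  fin_cases a <;> rfl

/-- The reflection. -/
def refl : V ≃ V where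
  toFun v := (-v.1, sw v.2)
  invFun v := (-v.1, sw v.2)
  left_inv v := by simp [sw_sw]
  right_inv v := by simp [sw_sw]

/-- The translations are automorphisms. -/
def transG (n : ℤ) : G ≃g G := mkAut (trans n) (by
  rintro ⟨i, a⟩
  fin_cases a <;> simp [ext, trans] <;> ring) (by
  rintro ⟨i, a⟩ ⟨j, b⟩
  simp [trans])

/-- The reflection is an automorphism. -/
def reflG : G ≃g G := mkAut refl (by
  rintro ⟨i, a⟩
  fin_cases a <;> simp [ext, refl, sw] <;> ring) (by
  rintro ⟨i, a⟩ ⟨j, b⟩
  have h : sw a = sw b ↔ a = b := ⟨fun h => by rw [← sw_sw a, h, sw_sw], fun h => by rw [h]⟩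
  simp [refl, h])

theorem quasi (v : V) : ∃ γ : G ≃g G, γ v ∈ ({((0 : ℤ), (0 : Fin 4)), (0, 1), (0, 2), (0, 3)} : Finset V) := by
  obtain ⟨i, a⟩ := v
  refine ⟨transG (-i), ?_⟩
  have h : transG (-i) (i, a) = (0, a) := by
    show (i + -i, a) = (0, a)
    rw [add_neg_cancel]
  rw [h]
  fin_cases a <;> simp

theorem reach_block (i : ℤ) (a b : Fin 4) : G.Reachable (i, a) (i, b) := by
  by_cases h : a = b
  · rw [h]
  · exact SimpleGraph.Adj.reachable (Or.inl ⟨rfl, h⟩)

theorem reach_succ (i : ℤ) : G.Reachable (i, 0) (i + 1, 0) :=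
  (SimpleGraph.Adj.reachable (G := G) (u := (i, 0)) (v := (i + 1, 1)) (Or.inr rfl)).trans
    (reach_block _ _ _)

theorem reach (i : ℤ) : G.Reachable (0, 0) (i, 0) := by
  induction i with
  | zero => exact SimpleGraph.Reachable.refl _
  | succ n ih => exact ih.trans (reach_succ _)
  | pred n ih =>
    have h := reach_succ (-(n : ℤ) - 1)
    rw [sub_add_cancel] at h
    exact ih.trans h.symm

theorem connected : G.Connected := by
  have : Nonempty V := ⟨(0, 0)⟩
  refine ⟨fun u v => ?_⟩
  obtain ⟨i, a⟩ := u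
  obtain ⟨j, b⟩ := v
  exact ((reach_block i a 0).trans (reach i).symm).trans ((reach j).trans (reach_block j 0 b))

/-- The matching edges are the edges whose endpoints have no common neighbour. -/
theorem ext_iff (u v : V) : v = ext u ↔ G.Adj u v ∧ ∀ w, ¬ (G.Adj u w ∧ G.Adj v w) := by
  constructor
  · rintro rfl
    refine ⟨Or.inr rfl, ?_⟩
    rintro w ⟨h1, h2⟩
    rw [adj_iff] at h1 h2
    rcases h1 with ⟨h1, h1'⟩ | h1
    · rcases h2 with ⟨h2, _⟩ | h2
      · exact ext_fst u (h2.trans h1.symm)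
      · rw [ext_ext] at h2
        exact h1' (by rw [h2])
    · rcases h2 with ⟨_, h2⟩ | h2
      · exact h2 (by rw [h1])
      · rw [ext_ext] at h2
        rw [h2] at h1
        exact ext_fst u (congrArg Prod.fst h1).symm
  · rintro ⟨h1, h2⟩
    rcases h1 with ⟨h1, h1'⟩ | h1
    · exfalso
      have hk : ∀ a b : Fin 4, ∃ k, k ≠ a ∧ k ≠ b := by decide
      obtain ⟨k, hk1, hk2⟩ := hk u.2 v.2
      exact h2 (u.1, k) ⟨Or.inl ⟨rfl, hk1.symm⟩, Or.inl ⟨h1.symm, hk2.symm⟩⟩
    · exact h1

theorem ext_aut (γ : G ≃g G) (v : V) : ext (γ v) = γ (ext v) := by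
  symm
  rw [ext_iff]
  have h := (ext_iff v (ext v)).1 rfl
  refine ⟨γ.map_rel_iff.2 h.1, fun w hw => ?_⟩
  refine h.2 (γ.symm w) ⟨?_, ?_⟩
  · have := hw.1
    rw [← γ.map_rel_iff]
    simpa using this
  · have := hw.2
    rw [← γ.map_rel_iff]
    simpa using this

theorem matching : ExistsAsFactor G (IsPerfectMatching G) := by
  refine ⟨fun _ u v => decide (v = ext u), ⟨measurable_const, fun γ ω => ?_⟩, ?_⟩
  · funext u v
    show decide (v = ext u) = decide (γ.symm v = ext (γ.symm u))
    rw [ext_aut]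
    simp
  · refine Eventually.of_forall fun ω => ⟨fun u v => ?_, fun u v h => ?_, fun u => ?_⟩
    · have : v = ext u ↔ u = ext v := by
        constructor <;> rintro rfl <;> rw [ext_ext]
      simp only [this]
    · have h : v = ext u := by simpa using h
      exact Or.inr h
    · refine ⟨ext u, by simp, fun v hv => ?_⟩
      simpa using hv

/-- The indicator of an oriented edge. -/
def b (o : V → V → Bool) (u v : V) : ℤ := if o u v = true then 1 else 0

theorem out_sum {o : V → V → Bool} (h : IsOrientation G o) (v : V) :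
    (({u | o v u = true}.ncard : ℕ) : ℤ) = ∑ k, b o v (nb v k) := by
  classical
  have h1 : {u | o v u = true} = nb v '' {k | o v (nb v k) = true} := by
    ext u
    simp only [mem_ofPred_eq, Set.mem_image]
    constructor
    · intro hu
      obtain ⟨k, rfl⟩ := (adj_nb v u).1 (h.1 v u hu)
      exact ⟨k, hu, rfl⟩
    · rintro ⟨k, hk, rfl⟩
      exact hk
  rw [h1, Set.ncard_image_of_injective _ (nb_inj v)]
  have h2 : {k | o v (nb v k) = true} = ((Finset.univ.filter fun k => o v (nb v k) = true :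
      Finset (Fin 4)) : Set (Fin 4)) := by
    ext k
    simp
  rw [h2, Set.ncard_coe_finset, Finset.card_filter]
  push_cast
  rfl

theorem b_add {o : V → V → Bool} (h : IsOrientation G o) {u v : V} (huv : G.Adj u v) :
    b o u v + b o v u = 1 := by
  have := h.2 u v huv
  unfold b
  by_cases h1 : o u v = true <;> by_cases h2 : o v u = true <;> simp_all

/-- The number of edges across the cut between `i` and `i + 1` which are oriented to the right. -/
def cut (o : V → V → Bool) (i : ℤ) : ℤ :=
  b o (i, 0) (i + 1, 1) + b o (i, 2) (i + 2, 3) + b o (i - 1, 2) (i + 1, 3)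

theorem cut_const {o : V → V → Bool} (h : IsBalanced G 2 o) (i : ℤ) :
    cut o i = cut o (i - 1) := by
  have e : ∀ v, ∑ k, b o v (nb v k) = 2 := by
    intro v
    rw [← out_sum h.1, (h.2 v).1]
    rfl
  have e0 := e (i, 0)
  have e1 := e (i, 1)
  have e2 := e (i, 2)
  have e3 := e (i, 3)
  simp only [Fin.sum_univ_four, nb, ext] at e0 e1 e2 e3
  simp at e0 e1 e2 e3
  have a01 := b_add h.1 (u := (i, 0)) (v := (i, 1)) (Or.inl ⟨rfl, by simp⟩)
  have a02 := b_add h.1 (u := (i, 0)) (v := (i, 2)) (Or.inl ⟨rfl, by simp⟩)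
  have a03 := b_add h.1 (u := (i, 0)) (v := (i, 3)) (Or.inl ⟨rfl, by simp⟩)
  have a12 := b_add h.1 (u := (i, 1)) (v := (i, 2)) (Or.inl ⟨rfl, by simp⟩)
  have a13 := b_add h.1 (u := (i, 1)) (v := (i, 3)) (Or.inl ⟨rfl, by simp⟩)
  have a23 := b_add h.1 (u := (i, 2)) (v := (i, 3)) (Or.inl ⟨rfl, by simp⟩)
  have c1 := b_add h.1 (u := (i, 1)) (v := (i - 1, 0)) (Or.inr rfl)
  have c3 := b_add h.1 (u := (i, 3)) (v := (i - 2, 2)) (Or.inr rfl)
  unfold cut
  rw [show i - 1 + 1 = i by ring, show i - 1 + 2 = i + 1 by ring, show i - 1 - 1 = i - 2 by ring]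
  omega

theorem cut_all {o : V → V → Bool} (h : IsBalanced G 2 o) (i : ℤ) : cut o i = cut o 0 := by
  induction i with
  | zero => rfl
  | succ n ih =>
    rw [cut_const h, add_sub_cancel_right, ih]
  | pred n ih =>
    rw [← cut_const h, ih]

theorem cut_trans (o : V → V → Bool) (n : ℤ) : cut (actDec (transG n) o) 0 = cut o (-n) := by
  unfold cut b actDec
  have h : ∀ (i : ℤ) (a : Fin 4), (transG n).symm (i, a) = (i - n, a) := fun _ _ => rfl
  simp only [h]
  rw [show (0 : ℤ) - n = -n by ring, show (0 : ℤ) + 1 - n = -n + 1 by ring,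
    show (0 : ℤ) + 2 - n = -n + 2 by ring, show (0 : ℤ) - 1 - n = -n - 1 by ring]

theorem cut_refl {o : V → V → Bool} (h : IsBalanced G 2 o) :
    cut (actDec reflG o) 0 = 3 - cut o (-1) := by
  have hs : ∀ (i : ℤ) (a : Fin 4), reflG.symm (i, a) = (-i, sw a) := fun _ _ => rfl
  have c1 := b_add h.1 (u := (0, 1)) (v := (-1, 0)) (Or.inr rfl)
  have c2 := b_add h.1 (u := (0, 3)) (v := (-2, 2)) (Or.inr rfl)
  have c3 := b_add h.1 (u := (1, 3)) (v := (-1, 2)) (Or.inr rfl)
  have e1 : cut (actDec reflG o) 0 = b o (0, 1) (-1, 0) + b o (0, 3) (-2, 2) +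
      b o (1, 3) (-1, 2) := by
    unfold cut b actDec
    simp only [hs]
    simp [sw]
  have e2 : cut o (-1) = b o (-1, 0) (0, 1) + b o (-1, 2) (1, 3) + b o (-2, 2) (0, 3) := by
    unfold cut
    norm_num
  rw [e1, e2]
  omega

theorem no_balanced : ¬ ExistsAsFactor G (IsBalanced G 2) := by
  rintro ⟨Φ, hΦ, hae⟩
  set A : Set (V → unitInterval) := {ω | 2 ≤ cut (Φ ω) 0} with hA
  have hb : ∀ u v, Measurable fun ω => b (Φ ω) u v := by
    intro u v
    unfold b
    refine Measurable.ite ?_ measurable_const measurable_const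
    exact ((measurable_pi_apply v).comp ((measurable_pi_apply u).comp hΦ.meas))
      (MeasurableSet.singleton true)
  have hcut : Measurable fun ω => cut (Φ ω) 0 := by
    unfold cut
    exact ((hb _ _).add (hb _ _)).add (hb _ _)
  have hAm : MeasurableSet A := hcut (measurableSet_Ici (a := (2 : ℤ)))
  have h01 := zero_one (V := V) (volume : Measure unitInterval)
    (T := fun n v => (transG (n : ℤ)).symm v) (fun n => (transG (n : ℤ)).symm.injective) (by
      rintro ⟨i, a⟩ ⟨j, c⟩
      filter_upwards [eventually_gt_atTop (i - j).toNat] with n hn h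
      have h1 : i - (n : ℤ) = j := congrArg Prod.fst h
      omega) A hAm (by
      intro n
      filter_upwards [hae] with ω hω
      show 2 ≤ cut (Φ (actLabel (transG n) ω)) 0 ↔ 2 ≤ cut (Φ ω) 0
      rw [hΦ.equi, cut_trans, cut_all hω])
  have h2 : (iid V).real A = (iid V).real Aᶜ := by
    have h3 : (iid V).real (actLabel reflG ⁻¹' A) = (iid V).real A := by
      rw [measureReal_def, measureReal_def]
      conv_rhs => rw [← map_actLabel reflG]
      rw [Measure.map_apply (measurable_actLabel reflG) hAm]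
    rw [← h3]
    refine measureReal_congr ?_
    filter_upwards [hae] with ω hω
    apply propext
    show 2 ≤ cut (Φ (actLabel reflG ω)) 0 ↔ ¬ 2 ≤ cut (Φ ω) 0
    rw [hΦ.equi, cut_refl hω, cut_all hω]
    omega
  have h3 : (iid V).real A + (iid V).real Aᶜ = 1 := by
    rw [probReal_compl_eq_one_sub hAm]
    ring
  have h01' : (iid V).real A = 0 ∨ (iid V).real A = 1 := h01
  rcases h01' with h | h
  · rw [← h2, h] at h3
    norm_num at h3
  · rw [← h2, h] at h3
    norm_num at h3

/-- There is a connected 4-regular graph on a countable vertex set whose automorphism group has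
finitely many orbits, with a factor of i.i.d. perfect matching, but without factor of i.i.d.
balanced orientations and without factor of i.i.d. Schreier decorations. -/
theorem result : ∃ (V : Type) (_ : Countable V) (G : SimpleGraph V),
    G.Connected ∧ (∀ v, (G.neighborSet v).ncard = 2 * 2) ∧
    (∃ F : Finset V, ∀ v, ∃ γ : G ≃g G, γ v ∈ F) ∧
    ExistsAsFactor G (IsPerfectMatching G) ∧
    ¬ ExistsAsFactor G (IsSchreier G 2) ∧ ¬ ExistsAsFactor G (IsBalanced G 2) :=
  ⟨V, inferInstance, G, connected, regular, ⟨_, quasi⟩, matching,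
    fun h => no_balanced (balanced_of_schreier h), no_balanced⟩

end Pool.Agent.Results.MP_71d783_pr.MatchingNoBalancedOrientation
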